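import Mathlib

set_option autoImplicit false

namespace Pool.Agent.Lib.MP_ce3cb6_co

open Finset Equiv

/-- exponential moment of a bounded centred family under the uniform average -/
lemma avg_exp_le {ι : Type*} [Fintype ι] (d : ι → ℝ) (b : ℝ) (hb : 0 ≤ b)
    (hd : ∀ i, |d i| ≤ b) (hs : ∑ i, d i = 0) :
    ∑ i, Real.exp (d i) ≤ (Fintype.card ι) * Real.exp (b ^ 2 / 2) := by
  rcases hb.eq_or_lt with hb0 | hb0
  · have h0 : ∀ i, d i = 0 := fun i => by
      have := hd i
      rw [← hb0] at this
      exact abs_eq_zero.1 (le_antisymm this (abs_nonneg _))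
    simp [h0, ← hb0]
  · have key : ∀ i, Real.exp (d i) ≤ Real.cosh b + d i / b * Real.sinh b := by
      intro i
      have ht : |d i / b| ≤ 1 := by
        rw [abs_div, abs_of_pos hb0, div_le_one hb0]
        exact hd i
      have := Real.exp_mul_le_cosh_add_mul_sinh ht b
      rwa [div_mul_cancel₀ _ hb0.ne'] at this
    calc ∑ i, Real.exp (d i) ≤ ∑ i, (Real.cosh b + d i / b * Real.sinh b) :=
          Finset.sum_le_sum fun i _ => key i
      _ = (Fintype.card ι) * Real.cosh b := by
          rw [Finset.sum_add_distrib, ← Finset.sum_mul, ← Finset.sum_div, hs]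
          simp
      _ ≤ _ := by
          gcongr
          exact Real.cosh_le_exp_half_sq b

lemma decomp_zero {n : ℕ} (p : Fin (n + 1)) (e : Perm (Fin n)) :
    Perm.decomposeFin.symm (p, e) = swap 0 p * Perm.decomposeFin.symm (0, e) := by
  ext x
  refine Fin.cases ?_ (fun x => ?_) x
  · simp
  · simp

lemma decomp_swap {n : ℕ} (a b : Fin n) (e : Perm (Fin n)) :
    Perm.decomposeFin.symm ((0 : Fin (n + 1)), swap a b * e)
      = swap a.succ b.succ * Perm.decomposeFin.symm (0, e) := by
  ext x
  refine Fin.cases ?_ (fun x => ?_) x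
  · simp [swap_apply_of_ne_of_ne (Fin.succ_ne_zero a).symm (Fin.succ_ne_zero b).symm]
  · simp only [Perm.decomposeFin_symm_apply_succ, Perm.mul_apply, swap_self, Equiv.refl_apply]
    rw [(Fin.succ_injective n).map_swap]

/-- McDiarmid-type exponential moment bound for Lipschitz functions of a random permutation. -/
theorem perm_exp_bound (n : ℕ) : ∀ (f : Perm (Fin n) → ℝ) (L : ℝ), 0 ≤ L →
    (∀ π a b, |f (swap a b * π) - f π| ≤ L) → ∀ l : ℝ,
    ∑ π, Real.exp (l * (f π - (∑ ρ, f ρ) / (n.factorial : ℝ)))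
      ≤ (n.factorial : ℝ) * Real.exp (2 * n * (l * L) ^ 2) := by
  induction n with
  | zero =>
    intro f L _ _ l
    simp
  | succ n ih =>
    intro f L hL hf l
    set F : Fin (n + 1) → Perm (Fin n) → ℝ := fun p e => f (Perm.decomposeFin.symm (p, e)) with hF
    set mp : Fin (n + 1) → ℝ := fun p => (∑ e, F p e) / (n.factorial : ℝ) with hmp
    set m : ℝ := (∑ ρ, f ρ) / ((n + 1).factorial : ℝ) with hm
    have hnf : (0 : ℝ) < n.factorial := by exact_mod_cast n.factorial_pos
    have hn1 : (0 : ℝ) < (n + 1 : ℝ) := by positivity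
    have hsum : ∀ u : Perm (Fin (n + 1)) → ℝ,
        ∑ π, u π = ∑ p : Fin (n + 1), ∑ e : Perm (Fin n), u (Perm.decomposeFin.symm (p, e)) := by
      intro u
      rw [← Fintype.sum_prod_type' (f := fun p e => u (Perm.decomposeFin.symm (p, e)))]
      exact (Equiv.sum_comp (Perm.decomposeFin (n := n)).symm u).symm
    have hmsum : m = (∑ p, mp p) / (n + 1 : ℝ) := by
      rw [hm, hsum f]
      simp only [hmp, ← Finset.sum_div]
      rw [Nat.factorial_succ, div_div]
      push_cast
      rw [mul_comm ((n : ℝ) + 1)]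
    have hpq : ∀ p q, |mp p - mp q| ≤ 2 * L := by
      intro p q
      have h1 : ∀ e, |F p e - F q e| ≤ 2 * L := by
        intro e
        have a1 := hf (Perm.decomposeFin.symm (0, e)) 0 p
        have a2 := hf (Perm.decomposeFin.symm (0, e)) 0 q
        simp only [hF]
        rw [decomp_zero p e, decomp_zero q e]
        rw [abs_le] at *
        constructor <;> linarith [a1.1, a1.2, a2.1, a2.2]
      simp only [hmp]
      rw [← sub_div, ← Finset.sum_sub_distrib, abs_div, abs_of_pos hnf, div_le_iff₀ hnf]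
      calc |∑ e, (F p e - F q e)| ≤ ∑ e, |F p e - F q e| := Finset.abs_sum_le_sum_abs _ _
        _ ≤ ∑ _e : Perm (Fin n), 2 * L := Finset.sum_le_sum fun e _ => h1 e
        _ = 2 * L * n.factorial := by
            simp [Fintype.card_perm, mul_comm]
    have hdev : ∀ p, |mp p - m| ≤ 2 * L := by
      intro p
      have : mp p - m = (∑ q, (mp p - mp q)) / (n + 1 : ℝ) := by
        rw [Finset.sum_sub_distrib, hmsum]
        simp
        field_simp
      rw [this, abs_div, abs_of_pos hn1, div_le_iff₀ hn1]
      calc |∑ q, (mp p - mp q)| ≤ ∑ q, |mp p - mp q| := Finset.abs_sum_le_sum_abs _ _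
        _ ≤ ∑ _q : Fin (n + 1), 2 * L := Finset.sum_le_sum fun q _ => hpq p q
        _ = 2 * L * (n + 1) := by simp; ring
    have hzero : ∑ p, (l * (mp p - m)) = 0 := by
      rw [← Finset.mul_sum, Finset.sum_sub_distrib, hmsum]
      simp
      right
      field_simp
      ring
    have hLip : ∀ p : Fin (n + 1), ∀ π a b, |F p (swap a b * π) - F p π| ≤ L := by
      intro p π a b
      simp only [hF]
      rw [decomp_zero p (swap a b * π), decomp_swap, ← mul_assoc, mul_swap_eq_swap_mul, mul_assoc,
        ← decomp_zero]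
      exact hf _ _ _
    calc ∑ π, Real.exp (l * (f π - m))
        = ∑ p, ∑ e, Real.exp (l * (F p e - m)) := hsum _
      _ = ∑ p, Real.exp (l * (mp p - m)) * ∑ e, Real.exp (l * (F p e - mp p)) := by
          refine Finset.sum_congr rfl fun p _ => ?_
          rw [Finset.mul_sum]
          refine Finset.sum_congr rfl fun e _ => ?_
          rw [← Real.exp_add]
          ring_nf
      _ ≤ ∑ p, Real.exp (l * (mp p - m)) *
            ((n.factorial : ℝ) * Real.exp (2 * n * (l * L) ^ 2)) := by
          refine Finset.sum_le_sum fun p _ => ?_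
          exact mul_le_mul_of_nonneg_left (ih (F p) L hL (hLip p) l) (Real.exp_pos _).le
      _ = (∑ p, Real.exp (l * (mp p - m))) *
            ((n.factorial : ℝ) * Real.exp (2 * n * (l * L) ^ 2)) := by
          rw [Finset.sum_mul]
      _ ≤ ((Fintype.card (Fin (n + 1)) : ℝ) * Real.exp ((|l| * (2 * L)) ^ 2 / 2)) *
            ((n.factorial : ℝ) * Real.exp (2 * n * (l * L) ^ 2)) := by
          refine mul_le_mul_of_nonneg_right ?_ (by positivity)
          refine avg_exp_le _ _ (by positivity) (fun p => ?_) hzero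
          rw [abs_mul]
          exact mul_le_mul_of_nonneg_left (hdev p) (abs_nonneg _)
      _ = ((n + 1).factorial : ℝ) * Real.exp (2 * ((n + 1 : ℕ) : ℝ) * (l * L) ^ 2) := by
          rw [Nat.factorial_succ, Fintype.card_fin]
          have : (|l| * (2 * L)) ^ 2 / 2 = 2 * (l * L) ^ 2 := by
            rw [mul_pow, sq_abs]; ring
          rw [this]
          push_cast
          rw [show 2 * ((n : ℝ) + 1) * (l * L) ^ 2 = 2 * (l * L) ^ 2 + 2 * n * (l * L) ^ 2 by ring,
            Real.exp_add]
          ring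

/-- Same for permutations of an arbitrary finite type. -/
theorem perm_exp_bound' {G : Type*} [Fintype G] [DecidableEq G] (f : Perm G → ℝ) (L : ℝ)
    (hL : 0 ≤ L) (hf : ∀ π a b, |f (swap a b * π) - f π| ≤ L) (l : ℝ) :
    ∑ π, Real.exp (l * (f π - (∑ ρ, f ρ) / ((Fintype.card G).factorial : ℝ)))
      ≤ ((Fintype.card G).factorial : ℝ) *
        Real.exp (2 * (Fintype.card G : ℝ) * (l * L) ^ 2) := by
  let e : Fin (Fintype.card G) ≃ G := (Fintype.equivFin G).symm
  have hsum : ∀ u : Perm G → ℝ, ∑ π, u π = ∑ π : Perm (Fin (Fintype.card G)), u (e.permCongr π) :=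
    fun u => (Equiv.sum_comp e.permCongr u).symm
  have h := perm_exp_bound (Fintype.card G) (fun π => f (e.permCongr π)) L hL (by
    intro π a b
    have : e.permCongr (swap a b * π) = swap (e a) (e b) * e.permCongr π := by
      ext x
      simp [Equiv.permCongr_apply, e.injective.map_swap]
    rw [this]
    exact hf _ _ _) l
  rw [hsum (fun π => Real.exp (l * (f π - (∑ ρ, f ρ) / ((Fintype.card G).factorial : ℝ)))),
    hsum f]
  exact h

/-- Upper tail for Lipschitz functions of a random permutation. -/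
theorem perm_tail {G : Type*} [Fintype G] [DecidableEq G] (f : Perm G → ℝ) (L : ℝ)
    (hL : 0 < L) (hf : ∀ π a b, |f (swap a b * π) - f π| ≤ L) (m t : ℝ) (ht : 0 ≤ t)
    (hm : (∑ ρ, f ρ) / ((Fintype.card G).factorial : ℝ) ≤ m) (hG : 0 < Fintype.card G) :
    ((Finset.univ.filter (fun π : Perm G => m + t ≤ f π)).card : ℝ)
      ≤ ((Fintype.card G).factorial : ℝ) *
        Real.exp (- t ^ 2 / (8 * (Fintype.card G : ℝ) * L ^ 2)) := by
  set n := Fintype.card G with hn
  have hn0 : (0 : ℝ) < n := by exact_mod_cast hG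
  set l : ℝ := t / (4 * n * L ^ 2) with hl
  have hl0 : 0 ≤ l := by positivity
  set μ : ℝ := (∑ ρ, f ρ) / (n.factorial : ℝ) with hμ
  have h := perm_exp_bound' f L hL.le hf l
  have h1 : ((Finset.univ.filter (fun π : Perm G => m + t ≤ f π)).card : ℝ) * Real.exp (l * t)
      ≤ ∑ π, Real.exp (l * (f π - μ)) := by
    calc ((Finset.univ.filter (fun π : Perm G => m + t ≤ f π)).card : ℝ) * Real.exp (l * t)
        = ∑ π ∈ Finset.univ.filter (fun π : Perm G => m + t ≤ f π), Real.exp (l * t) := by
          simp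
      _ ≤ ∑ π ∈ Finset.univ.filter (fun π : Perm G => m + t ≤ f π), Real.exp (l * (f π - μ)) := by
          refine Finset.sum_le_sum fun π hπ => ?_
          rw [Finset.mem_filter] at hπ
          apply Real.exp_le_exp.2
          apply mul_le_mul_of_nonneg_left _ hl0
          linarith [hπ.2]
      _ ≤ _ := Finset.sum_le_sum_of_subset_of_nonneg (Finset.filter_subset _ _)
          fun _ _ _ => (Real.exp_pos _).le
  have h2 := h1.trans h
  have h3 : (0 : ℝ) < Real.exp (l * t) := Real.exp_pos _
  rw [← le_div_iff₀ h3] at h2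
  refine h2.trans (le_of_eq ?_)
  rw [mul_div_assoc, ← Real.exp_sub]
  congr 2
  rw [hl]
  field_simp
  ring

end Pool.Agent.Lib.MP_ce3cb6_co
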