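import Pool.Agent.Lib.MP_ce3cb6_co.Moments
import Pool.Agent.Lib.MP_ce3cb6_co.PermConc

set_option autoImplicit false

namespace Pool.Agent.Lib.MP_ce3cb6_co

open Finset Equiv

variable {G : Type*} [AddCommGroup G] [Fintype G] [DecidableEq G]

instance : DecidablePred (Valid (G := G)) := fun _ =>
  inferInstanceAs (Decidable (_ ∧ _))

/-- number of cells of `F s` in the class `j` -/
def hits (F : G → Finset (G × G)) (x : Perm G × Perm G) (s j : G) : ℕ :=
  ((F s).filter (fun e => x.1 e.1 + x.2 e.2 = j)).card

lemma hits_sum (F : G → Finset (G × G)) (x : Perm G × Perm G) (s : G) :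
    ∑ j, hits F x s j = (F s).card := by
  unfold hits
  rw [← Finset.card_eq_sum_card_fiberwise (f := fun e : G × G => x.1 e.1 + x.2 e.2)
    (s := F s) (t := univ) (fun _ _ => by simp)]

lemma hits_mul_sum (F : G → Finset (G × G)) (x : Perm G × Perm G) (s s' : G) :
    ∑ j, hits F x s j * hits F x s' j
      = ((F s ×ˢ F s').filter (fun p => Same x.1 x.2 p)).card := by
  rw [Finset.card_eq_sum_card_fiberwise (f := fun p : (G × G) × (G × G) => x.1 p.1.1 + x.2 p.1.2)
    (s := (F s ×ˢ F s').filter (fun p => Same x.1 x.2 p)) (t := univ) (fun _ _ => by simp)]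
  refine Finset.sum_congr rfl fun j _ => ?_
  unfold hits
  rw [← Finset.card_product]
  congr 1
  ext p
  simp only [mem_product, mem_filter]
  constructor
  · rintro ⟨⟨a, b⟩, ⟨c, d⟩⟩
    exact ⟨⟨⟨a, c⟩, b.trans d.symm⟩, b⟩
  · rintro ⟨⟨⟨a, c⟩, b⟩, d⟩
    exact ⟨⟨a, d⟩, ⟨c, (show _ = _ from b).symm.trans d⟩⟩

/-- the valid pairs -/
def PP (F : G → Finset (G × G)) (s s' : G) : Finset ((G × G) × (G × G)) :=
  (F s ×ˢ F s').filter Valid

lemma PP_valid (F : G → Finset (G × G)) (s s' : G) : ∀ p ∈ PP F s s', Valid p := by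
  intro p hp
  exact (Finset.mem_filter.1 hp).2

lemma PP_card (F : G → Finset (G × G)) (s s' : G) :
    (PP F s s').card ≤ (F s).card * (F s').card := by
  unfold PP
  refine (Finset.card_filter_le _ _).trans ?_
  rw [Finset.card_product]

lemma same_card_le (F : G → Finset (G × G)) (x : Perm G × Perm G) (s s' : G) :
    (((F s ×ˢ F s').filter (fun p => Same x.1 x.2 p)).card : ℝ)
      ≤ ((F s ∩ F s').card : ℝ) + Z (PP F s s') x := by
  have h : (F s ×ˢ F s').filter (fun p => Same x.1 x.2 p)
      ⊆ ((F s ∩ F s').image (fun e => (e, e))) ∪ (PP F s s').filter (fun p => Same x.1 x.2 p) := by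
    rintro ⟨⟨a, b⟩, ⟨c, d⟩⟩ hp
    simp only [mem_filter, mem_product] at hp
    obtain ⟨⟨h1, h2⟩, h3⟩ := hp
    change x.1 a + x.2 b = x.1 c + x.2 d at h3
    by_cases hac : a = c
    · subst hac
      have : b = d := x.2.injective (add_left_cancel h3)
      subst this
      refine Finset.mem_union_left _ ?_
      simp [h1, h2]
    · by_cases hbd : b = d
      · subst hbd
        have : a = c := x.1.injective (add_right_cancel h3)
        exact absurd this hac
      · refine Finset.mem_union_right _ ?_
        simp only [PP, mem_filter, mem_product]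
        exact ⟨⟨⟨h1, h2⟩, ⟨hac, hbd⟩⟩, h3⟩
  have h2 := (Finset.card_le_card h).trans (Finset.card_union_le _ _)
  have h3 : ((F s ∩ F s').image (fun e => (e, e))).card ≤ (F s ∩ F s').card :=
    Finset.card_image_le
  unfold Z
  exact_mod_cast h2.trans (Nat.add_le_add_right h3 _)

/-- number of cells of `T` on the graph of a permutation -/
def onPerm (T : Finset (G × G)) (π : Perm G) : ℝ :=
  ((univ.filter (fun r => (r, π r) ∈ T)).card : ℝ)

omit [AddCommGroup G] in
lemma onPerm_lip (T : Finset (G × G)) (π : Perm G) (a b : G) :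
    |onPerm T (swap a b * π) - onPerm T π| ≤ 2 := by
  unfold onPerm
  rw [Finset.card_filter, Finset.card_filter]
  simp only [Nat.cast_sum, Nat.cast_ite, Nat.cast_one, Nat.cast_zero]
  rw [← Finset.sum_sub_distrib]
  have h0 : ∀ r ∈ (univ : Finset G), r ∉ ({π.symm a, π.symm b} : Finset G) →
      ((if (r, (swap a b * π) r) ∈ T then (1 : ℝ) else 0) - if (r, π r) ∈ T then (1 : ℝ) else 0)
        = 0 := by
    intro r _ hr
    simp only [mem_insert, mem_singleton, not_or] at hr
    have h1 : π r ≠ a := fun h => hr.1 (by rw [← h]; simp)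
    have h2 : π r ≠ b := fun h => hr.2 (by rw [← h]; simp)
    rw [Perm.mul_apply, swap_apply_of_ne_of_ne h1 h2]
    simp
  rw [← Finset.sum_subset (Finset.subset_univ ({π.symm a, π.symm b} : Finset G))
    (fun r hr hr' => h0 r hr hr')]
  refine (Finset.abs_sum_le_sum_abs _ _).trans ?_
  calc ∑ r ∈ ({π.symm a, π.symm b} : Finset G),
        |(if (r, (swap a b * π) r) ∈ T then (1 : ℝ) else 0) - if (r, π r) ∈ T then (1 : ℝ) else 0|
      ≤ ∑ _r ∈ ({π.symm a, π.symm b} : Finset G), (1 : ℝ) := by
        refine Finset.sum_le_sum fun r _ => ?_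
        split_ifs <;> simp
    _ = ((({π.symm a, π.symm b} : Finset G)).card : ℝ) := by simp
    _ ≤ 2 := by exact_mod_cast Finset.card_le_two

omit [AddCommGroup G] in
lemma onPerm_mean (T : Finset (G × G)) (hn : 0 < Fintype.card G) :
    (∑ π : Perm G, onPerm T π) / ((Fintype.card G).factorial : ℝ)
      = (T.card : ℝ) / Fintype.card G := by
  have h1 : ∀ e : G × G, (univ.filter (fun π : Perm G => π e.1 = e.2)).card * Fintype.card G
      = (Fintype.card G).factorial := by
    intro e
    have h := switch_eq (∅ : Finset G) e.1 (by simp) (fun _ => True) (fun _ => e.2)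
      (fun _ _ _ _ => trivial) (fun _ _ _ _ => rfl) (fun _ _ x hx => by simp at hx)
    simpa [Fintype.card_perm] using h
  have hf : (0 : ℝ) < ((Fintype.card G).factorial : ℝ) := by
    exact_mod_cast Nat.factorial_pos _
  have hn' : (0 : ℝ) < (Fintype.card G : ℝ) := by exact_mod_cast hn
  rw [div_eq_div_iff hf.ne' hn'.ne']
  have h2 : ∑ π : Perm G, onPerm T π
      = ∑ e ∈ T, ((univ.filter (fun π : Perm G => π e.1 = e.2)).card : ℝ) := by
    unfold onPerm
    have : ∀ π : Perm G, ((univ.filter (fun r => (r, π r) ∈ T)).card : ℝ)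
        = ∑ e ∈ T, if π e.1 = e.2 then (1 : ℝ) else 0 := by
      intro π
      rw [← Finset.sum_filter, Finset.sum_const, nsmul_eq_mul, mul_one]
      congr 1
      refine Finset.card_bij' (fun r _ => (r, π r)) (fun e _ => e.1) ?_ ?_ ?_ ?_
      · intro r hr
        simpa using hr
      · intro e he
        simp only [mem_filter] at he
        simp only [mem_filter, mem_univ, true_and]
        rw [he.2]
        exact he.1
      · intro r _; rfl
      · intro e he
        simp only [mem_filter] at he
        ext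
        · rfl
        · simp [he.2]
    simp only [this]
    rw [Finset.sum_comm]
    refine Finset.sum_congr rfl fun e _ => ?_
    rw [Finset.card_filter]
    push_cast
    rfl
  rw [h2, Finset.sum_mul]
  have h3 : ∀ e ∈ T, ((univ.filter (fun π : Perm G => π e.1 = e.2)).card : ℝ)
      * (Fintype.card G : ℝ) = ((Fintype.card G).factorial : ℝ) := by
    intro e _
    exact_mod_cast h1 e
  rw [Finset.sum_congr rfl h3]
  simp

/-- number of cells of `T` in the class `j` -/
lemma class_card (T : Finset (G × G)) (σ τ : Perm G) (j : G) :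
    ((T.filter (fun e => σ e.1 + τ e.2 = j)).card : ℝ)
      = onPerm T (τ⁻¹ * (Equiv.subLeft j * σ)) := by
  unfold onPerm
  congr 1
  refine Finset.card_bij' (fun e _ => e.1)
    (fun r _ => (r, (τ⁻¹ * (Equiv.subLeft j * σ)) r)) ?_ ?_ ?_ ?_
  · intro e he
    simp only [mem_filter] at he
    simp only [mem_filter, mem_univ, true_and, Perm.mul_apply, Equiv.subLeft_apply]
    have : τ⁻¹ (j - σ e.1) = e.2 := by
      rw [Perm.inv_eq_iff_eq, ← he.2]
      abel
    rw [this]
    exact he.1
  · intro r hr
    simp only [mem_filter, mem_univ, true_and] at hr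
    simp only [mem_filter]
    refine ⟨hr, ?_⟩
    simp
  · intro e he
    simp only [mem_filter] at he
    have : τ⁻¹ (j - σ e.1) = e.2 := by
      rw [Perm.inv_eq_iff_eq, ← he.2]
      abel
    ext
    · rfl
    · simpa using this
  · intro r _; rfl

/-- number of pairs of permutations for which some class has many cells of `T` -/
theorem bad_card (T : Finset (G × G)) (m t : ℝ) (ht : 0 ≤ t)
    (hT : (T.card : ℝ) / Fintype.card G ≤ m) (hn : 0 < Fintype.card G) :
    ((univ.filter (fun x : Perm G × Perm G =>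
        ∃ j, m + t ≤ ((T.filter (fun e => x.1 e.1 + x.2 e.2 = j)).card : ℝ))).card : ℝ)
      ≤ (Fintype.card G : ℝ) * ((Fintype.card G).factorial : ℝ) ^ 2 *
        Real.exp (- t ^ 2 / (32 * (Fintype.card G : ℝ))) := by
  classical
  have h1 : (univ.filter (fun x : Perm G × Perm G =>
        ∃ j, m + t ≤ ((T.filter (fun e => x.1 e.1 + x.2 e.2 = j)).card : ℝ)))
      ⊆ univ.biUnion (fun j => univ.filter (fun x : Perm G × Perm G =>
        m + t ≤ ((T.filter (fun e => x.1 e.1 + x.2 e.2 = j)).card : ℝ))) := by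
    intro x hx
    simpa using hx
  have h2 : ∀ j : G, ((univ.filter (fun x : Perm G × Perm G =>
        m + t ≤ ((T.filter (fun e => x.1 e.1 + x.2 e.2 = j)).card : ℝ))).card : ℝ)
      ≤ ((Fintype.card G).factorial : ℝ) ^ 2 *
        Real.exp (- t ^ 2 / (32 * (Fintype.card G : ℝ))) := by
    intro j
    have e1 : (univ.filter (fun x : Perm G × Perm G =>
        m + t ≤ ((T.filter (fun e => x.1 e.1 + x.2 e.2 = j)).card : ℝ))).card
        = ∑ σ : Perm G, (univ.filter (fun τ : Perm G =>
          m + t ≤ ((T.filter (fun e => σ e.1 + τ e.2 = j)).card : ℝ))).card := by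
      simp only [Finset.card_filter]
      rw [Fintype.sum_prod_type]
    have e2 : ∀ σ : Perm G, (univ.filter (fun τ : Perm G =>
          m + t ≤ ((T.filter (fun e => σ e.1 + τ e.2 = j)).card : ℝ))).card
        = (univ.filter (fun π : Perm G => m + t ≤ onPerm T π)).card := by
      intro σ
      refine Finset.card_equiv
        ((Equiv.inv (Perm G)).trans (Equiv.mulRight (Equiv.subLeft j * σ))) ?_
      intro τ
      simp only [mem_filter, mem_univ, true_and]
      rw [class_card]
      rfl
    have e3 := perm_tail (onPerm T) 2 (by norm_num) (onPerm_lip T) m t ht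
      (by rw [onPerm_mean T hn]; exact hT) hn
    rw [e1, Finset.sum_congr rfl (fun σ _ => e2 σ)]
    rw [Finset.sum_const, Finset.card_univ, Fintype.card_perm, smul_eq_mul]
    push_cast
    rw [sq, mul_assoc]
    refine mul_le_mul_of_nonneg_left ?_ (by positivity)
    refine e3.trans (le_of_eq ?_)
    congr 2
    ring
  calc _ ≤ ((univ.biUnion (fun j => univ.filter (fun x : Perm G × Perm G =>
        m + t ≤ ((T.filter (fun e => x.1 e.1 + x.2 e.2 = j)).card : ℝ)))).card : ℝ) := by
        exact_mod_cast Finset.card_le_card h1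
    _ ≤ ∑ j : G, ((univ.filter (fun x : Perm G × Perm G =>
        m + t ≤ ((T.filter (fun e => x.1 e.1 + x.2 e.2 = j)).card : ℝ))).card : ℝ) := by
        exact_mod_cast Finset.card_biUnion_le
    _ ≤ ∑ _j : G, ((Fintype.card G).factorial : ℝ) ^ 2 *
        Real.exp (- t ^ 2 / (32 * (Fintype.card G : ℝ))) := Finset.sum_le_sum fun j _ => h2 j
    _ = _ := by
        rw [Finset.sum_const, Finset.card_univ, nsmul_eq_mul]
        ring

end Pool.Agent.Lib.MP_ce3cb6_co
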