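import Pool.Agent.Lib.MP_ce3cb6_co.Hits

set_option autoImplicit false

namespace Pool.Agent.Lib.MP_ce3cb6_co

open Finset Equiv

variable {G : Type*} [AddCommGroup G] [Fintype G] [DecidableEq G]

lemma exp_bound (n g : ℝ) (hn : 4096 ≤ n) (hg0 : 0 ≤ g) (hg : 4096 * n ^ 5 ≤ g ^ 6) :
    n * Real.exp (- (g / 2) ^ 2 / (32 * n)) ≤ 1 / 4 := by
  have hn0 : 0 < n := by linarith
  set t : ℝ := (g / 2) ^ 2 / (32 * n) with ht
  have ht0 : 0 ≤ t := by positivity
  have h1 : t ^ 6 / (Nat.factorial 6 : ℝ) ≤ Real.exp t := Real.pow_div_factorial_le_exp t ht0 6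
  have h2 : n ^ 4 / 262144 ≤ t ^ 6 := by
    have e : t ^ 6 = (g ^ 6) ^ 2 / (128 * n) ^ 6 := by
      rw [ht]; field_simp; ring
    rw [e, div_le_div_iff₀ (by norm_num) (by positivity)]
    have : (4096 * n ^ 5) ^ 2 ≤ (g ^ 6) ^ 2 := pow_le_pow_left₀ (by positivity) hg 2
    nlinarith
  have h3 : 4 * n ≤ Real.exp t := by
    refine le_trans ?_ h1
    rw [show ((Nat.factorial 6 : ℕ) : ℝ) = 720 by norm_num [Nat.factorial]]
    rw [le_div_iff₀ (by norm_num)]
    refine le_trans ?_ h2
    rw [le_div_iff₀ (by norm_num)]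
    have h5 : (4096 : ℝ) ^ 3 ≤ n ^ 3 := pow_le_pow_left₀ (by norm_num) hn 3
    have h6 : n * (4096 : ℝ) ^ 3 ≤ n ^ 4 := by
      calc n * (4096 : ℝ) ^ 3 ≤ n * n ^ 3 := by gcongr
        _ = n ^ 4 := by ring
    nlinarith
  have h4 : Real.exp (- (g / 2) ^ 2 / (32 * n)) = (Real.exp t)⁻¹ := by
    rw [← Real.exp_neg, ht, neg_div]
  rw [h4, ← div_eq_mul_inv, div_le_div_iff₀ (Real.exp_pos _) (by norm_num)]
  linarith

theorem exists_good (F : G → Finset (G × G)) (g : ℕ)
    (hg : 4096 * Fintype.card G ^ 5 ≤ g ^ 6) (hF : ∀ s, (F s).card + g ≤ Fintype.card G) :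
    ∃ x : Perm G × Perm G,
      (∑ s, ∑ s', (Z (PP F s s') x - (PP F s s').card / ((Fintype.card G : ℝ) - 1)) ^ 2
        ≤ 16 * (Fintype.card G : ℝ) ^ 3) ∧
      ∀ j, (((univ.biUnion F).filter (fun e => x.1 e.1 + x.2 e.2 = j)).card : ℝ)
        < (Fintype.card G : ℝ) - (g : ℝ) / 2 := by
  classical
  set n := Fintype.card G with hnn
  have hnpos : 0 < n := Fintype.card_pos
  have hgn : g ≤ n := by
    have := hF 0
    omega
  have hn : 4096 ≤ n := by
    have h1 : 4096 * n ^ 5 ≤ n * n ^ 5 := by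
      calc 4096 * n ^ 5 ≤ g ^ 6 := hg
        _ ≤ n ^ 6 := Nat.pow_le_pow_left hgn 6
        _ = n * n ^ 5 := by ring
    exact Nat.le_of_mul_le_mul_right h1 (by positivity)
  have hg1 : 1 ≤ g := by
    rcases Nat.eq_zero_or_pos g with h | h
    · rw [h] at hg
      have : 0 < 4096 * n ^ 5 := by positivity
      omega
    · exact h
  have hnR : (4096 : ℝ) ≤ n := by exact_mod_cast hn
  have hgR : (1 : ℝ) ≤ g := by exact_mod_cast hg1
  set N : ℝ := (n.factorial : ℝ) ^ 2 with hN
  have hN0 : 0 < N := by positivity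
  have hcard : (Fintype.card (Perm G × Perm G) : ℝ) = N := by
    rw [Fintype.card_prod, Fintype.card_perm, hN, sq]
    push_cast
    rfl
  set Φ1 : Perm G × Perm G → ℝ := fun x =>
    ∑ s, ∑ s', (Z (PP F s s') x - (PP F s s').card / ((n : ℝ) - 1)) ^ 2 with hΦ1
  set bad : Perm G × Perm G → Prop := fun x =>
    ∃ j, ((n : ℝ) - g) + (g : ℝ) / 2 ≤
      (((univ.biUnion F).filter (fun e => x.1 e.1 + x.2 e.2 = j)).card : ℝ) with hbad
  have hFR : ∀ s, ((F s).card : ℝ) ≤ (n : ℝ) - g := by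
    intro s
    have : ((F s).card : ℝ) + g ≤ n := by exact_mod_cast hF s
    linarith
  have s1 : ∑ x, Φ1 x ≤ 8 * (n : ℝ) ^ 3 * N := by
    simp only [hΦ1]
    rw [Finset.sum_comm]
    calc ∑ s, ∑ x : Perm G × Perm G,
          ∑ s', (Z (PP F s s') x - (PP F s s').card / ((n : ℝ) - 1)) ^ 2
        = ∑ s, ∑ s', ∑ x : Perm G × Perm G,
          (Z (PP F s s') x - (PP F s s').card / ((n : ℝ) - 1)) ^ 2 := by
          refine Finset.sum_congr rfl fun s _ => ?_
          rw [Finset.sum_comm]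
      _ ≤ ∑ _s : G, ∑ _s' : G, 8 * (n : ℝ) * N := by
          refine Finset.sum_le_sum fun s _ => Finset.sum_le_sum fun s' _ => ?_
          refine sumVar (PP F s s') (PP_valid F s s') (by omega) ?_
          have h1 : ((PP F s s').card : ℝ) ≤ ((F s).card : ℝ) * ((F s').card : ℝ) := by
            exact_mod_cast PP_card F s s'
          have h2 := hFR s
          have h3 := hFR s'
          calc ((PP F s s').card : ℝ) ≤ ((F s).card : ℝ) * ((F s').card : ℝ) := h1
            _ ≤ ((n : ℝ) - 1) * ((n : ℝ) - 1) := by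
                apply mul_le_mul (by linarith) (by linarith) (by positivity) (by linarith)
            _ = _ := by ring
      _ = _ := by
          simp only [Finset.sum_const, Finset.card_univ, nsmul_eq_mul]
          rw [← hnn]
          ring
  have s2 : ((univ.filter (fun x => bad x)).card : ℝ) ≤ N / 4 := by
    have h1 : ((univ.biUnion F).card : ℝ) / n ≤ (n : ℝ) - g := by
      rw [div_le_iff₀ (by linarith)]
      calc ((univ.biUnion F).card : ℝ) ≤ ∑ s, ((F s).card : ℝ) := by
            exact_mod_cast Finset.card_biUnion_le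
        _ ≤ ∑ _s : G, ((n : ℝ) - g) := Finset.sum_le_sum fun s _ => hFR s
        _ = ((n : ℝ) - g) * n := by
            rw [Finset.sum_const, Finset.card_univ, nsmul_eq_mul, mul_comm]
    have h2 := bad_card (univ.biUnion F) ((n : ℝ) - g) ((g : ℝ) / 2) (by positivity) h1
      (by omega)
    refine h2.trans ?_
    have h3 := exp_bound n g hnR (by positivity) (by exact_mod_cast hg)
    calc (n : ℝ) * (n.factorial : ℝ) ^ 2 * Real.exp (-((g : ℝ) / 2) ^ 2 / (32 * n))
        = N * ((n : ℝ) * Real.exp (-((g : ℝ) / 2) ^ 2 / (32 * n))) := by rw [hN]; ring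
      _ ≤ N * (1 / 4) := by gcongr
      _ = N / 4 := by ring
  by_contra hcon
  push Not at hcon
  have hall : ∀ x : Perm G × Perm G, 2 < Φ1 x / (8 * (n : ℝ) ^ 3) + (if bad x then 4 else 0) := by
    intro x
    have hΦ0 : 0 ≤ Φ1 x / (8 * (n : ℝ) ^ 3) := by
      apply div_nonneg _ (by positivity)
      exact Finset.sum_nonneg fun s _ => Finset.sum_nonneg fun s' _ => sq_nonneg _
    by_cases hb : bad x
    · rw [if_pos hb]; linarith
    · rw [if_neg hb, add_zero, lt_div_iff₀ (by positivity)]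
      by_contra hle
      push Not at hle
      obtain ⟨j, hj⟩ := hcon x (by linarith)
      exact hb ⟨j, by linarith⟩
  have hlt : ∑ _x : Perm G × Perm G, (2 : ℝ)
      < ∑ x : Perm G × Perm G, (Φ1 x / (8 * (n : ℝ) ^ 3) + (if bad x then 4 else 0)) :=
    Finset.sum_lt_sum_of_nonempty Finset.univ_nonempty fun x _ => hall x
  rw [Finset.sum_add_distrib, ← Finset.sum_div, Finset.sum_const, Finset.card_univ, nsmul_eq_mul,
    hcard] at hlt
  have e1 : (∑ x, Φ1 x) / (8 * (n : ℝ) ^ 3) ≤ N := by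
    rw [div_le_iff₀ (by positivity)]
    linarith
  have e2 : ∑ x : Perm G × Perm G, (if bad x then (4 : ℝ) else 0) ≤ N := by
    rw [← Finset.sum_filter, Finset.sum_const, nsmul_eq_mul]
    linarith
  linarith

/-- the final numerical contradiction -/
lemma final_contra (n g x y D : ℝ) (hn : 1 ≤ n) (hg0 : 0 < g) (hg : 4096 * n ^ 5 ≤ g ^ 6)
    (hx : g ≤ x) (hxn : x ≤ n) (hy : g / 2 ≤ y) (hxy : n ≤ x + y)
    (hD : D ^ 2 ≤ 16 * x ^ 2 * n ^ 3)
    (hmain : y * (x * g / n) ^ 2 ≤ x * n + x ^ 2 + D) : False := by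
  have hn0 : 0 < n := by linarith
  have hx0 : 0 < x := by linarith
  set w : ℝ := Real.sqrt n with hw
  have hw2 : w ^ 2 = n := Real.sq_sqrt hn0.le
  have hw1 : 1 ≤ w := by
    rw [hw, Real.one_le_sqrt]
    exact hn
  have hw0 : 0 < w := by linarith
  have hD' : D ≤ 4 * x * w ^ 3 := by
    apply le_of_sq_le_sq _ (by positivity)
    calc D ^ 2 ≤ 16 * x ^ 2 * n ^ 3 := hD
      _ = (4 * x * w ^ 3) ^ 2 := by rw [← hw2]; ring
  have h1 : y * x * g ^ 2 ≤ 6 * w ^ 7 := by
    have e1 : y * (x * g / n) ^ 2 = (y * x * g ^ 2) * x / n ^ 2 := by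
      field_simp
    rw [e1, div_le_iff₀ (by positivity)] at hmain
    have e2 : (y * x * g ^ 2) * x ≤ (6 * w ^ 7) * x := by
      refine hmain.trans ?_
      have e3 : x * n + x ^ 2 + D ≤ x * (6 * w ^ 3) := by
        have e4 : n ≤ w ^ 3 := by
          rw [← hw2]
          exact pow_le_pow_right₀ hw1 (by norm_num)
        nlinarith
      calc (x * n + x ^ 2 + D) * n ^ 2 ≤ (x * (6 * w ^ 3)) * n ^ 2 := by gcongr
        _ = _ := by rw [← hw2]; ring
    exact le_of_mul_le_mul_right e2 hx0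
  have h2 : n * g / 4 ≤ y * x := by
    rcases le_total (n / 2) x with h | h
    · calc n * g / 4 = (g / 2) * (n / 2) := by ring
        _ ≤ y * x := by
            apply mul_le_mul hy h (by positivity)
            linarith
    · have : n / 2 ≤ y := by linarith
      calc n * g / 4 ≤ (n / 2) * g := by nlinarith
        _ ≤ y * x := by
            apply mul_le_mul this hx hg0.le
            linarith
  have h3 : g ^ 3 ≤ 24 * w ^ 5 := by
    have : (n * g / 4) * g ^ 2 ≤ 6 * w ^ 7 := le_trans (by gcongr) h1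
    have h4 : g ^ 3 * w ^ 2 ≤ (24 * w ^ 5) * w ^ 2 := by
      rw [hw2]
      calc g ^ 3 * n = 4 * ((n * g / 4) * g ^ 2) := by ring
        _ ≤ 4 * (6 * w ^ 7) := by gcongr
        _ = (24 * w ^ 5) * n := by rw [← hw2]; ring
    exact le_of_mul_le_mul_right h4 (by positivity)
  have h5 : g ^ 6 ≤ 576 * n ^ 5 := by
    calc g ^ 6 = (g ^ 3) ^ 2 := by ring
      _ ≤ (24 * w ^ 5) ^ 2 := pow_le_pow_left₀ (by positivity) h3 2
      _ = 576 * n ^ 5 := by rw [← hw2]; ring
  have h6 : 0 < n ^ 5 := by positivity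
  linarith

lemma gram_upper (F : G → Finset (G × G)) (x : Perm G × Perm G) (X : Finset G) (nr : ℝ)
    (hnr2 : 2 ≤ nr) (hFR : ∀ s, ((F s).card : ℝ) ≤ nr - 1)
    (hdisj : ∀ s s', s ≠ s' → Disjoint (F s) (F s')) :
    ∑ j, (∑ s ∈ X, (hits F x s j : ℝ)) ^ 2 - (∑ s ∈ X, ((F s).card : ℝ)) ^ 2 / nr
      ≤ (X.card : ℝ) * nr + (X.card : ℝ) ^ 2
        + ∑ s ∈ X, ∑ s' ∈ X, (Z (PP F s s') x - (PP F s s').card / (nr - 1)) := by
  have hu2 : ∑ j, (∑ s ∈ X, (hits F x s j : ℝ)) ^ 2 = ∑ s ∈ X, ∑ s' ∈ X,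
      (((F s ×ˢ F s').filter (fun p => Same x.1 x.2 p)).card : ℝ) := by
    have h1 : ∀ j, (∑ s ∈ X, (hits F x s j : ℝ)) ^ 2
        = ∑ s ∈ X, ∑ s' ∈ X, (hits F x s j : ℝ) * (hits F x s' j : ℝ) := by
      intro j
      rw [sq, Finset.sum_mul_sum]
    simp only [h1]
    rw [Finset.sum_comm]
    refine Finset.sum_congr rfl fun s _ => ?_
    rw [Finset.sum_comm]
    refine Finset.sum_congr rfl fun s' _ => ?_
    exact_mod_cast hits_mul_sum F x s s'
  have hS2 : (∑ s ∈ X, ((F s).card : ℝ)) ^ 2 / nr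
      = ∑ s ∈ X, ∑ s' ∈ X, ((F s).card : ℝ) * ((F s').card : ℝ) / nr := by
    rw [sq, Finset.sum_mul_sum, Finset.sum_div]
    refine Finset.sum_congr rfl fun s _ => ?_
    rw [Finset.sum_div]
  rw [hu2, hS2, ← Finset.sum_sub_distrib]
  have hterm : ∀ s ∈ X, ∀ s' ∈ X,
      (((F s ×ˢ F s').filter (fun p => Same x.1 x.2 p)).card : ℝ)
        - ((F s).card : ℝ) * ((F s').card : ℝ) / nr
      ≤ ((F s ∩ F s').card : ℝ) + 1 + (Z (PP F s s') x - (PP F s s').card / (nr - 1)) := by
    intro s _ s' _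
    have h1 := same_card_le F x s s'
    have h2 : ((PP F s s').card : ℝ) / (nr - 1)
        - ((F s).card : ℝ) * ((F s').card : ℝ) / nr ≤ 1 := by
      have h3 : ((PP F s s').card : ℝ) ≤ ((F s).card : ℝ) * ((F s').card : ℝ) := by
        exact_mod_cast PP_card F s s'
      have hn1 : 0 < nr - 1 := by linarith
      have hn0 : 0 < nr := by linarith
      have h4 : ((F s).card : ℝ) * ((F s').card : ℝ) ≤ (nr - 1) * nr := by
        apply mul_le_mul _ _ (by positivity) (by linarith)
        · have := hFR s; linarith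
        · have := hFR s'; linarith
      calc ((PP F s s').card : ℝ) / (nr - 1) - ((F s).card : ℝ) * ((F s').card : ℝ) / nr
          ≤ ((F s).card : ℝ) * ((F s').card : ℝ) / (nr - 1)
            - ((F s).card : ℝ) * ((F s').card : ℝ) / nr := by gcongr
        _ = ((F s).card : ℝ) * ((F s').card : ℝ) / ((nr - 1) * nr) := by
            field_simp
            ring
        _ ≤ 1 := by
            rw [div_le_one (by positivity)]
            exact h4
    linarith
  have hone : ∑ _s ∈ X, ∑ _s' ∈ X, (1 : ℝ) = (X.card : ℝ) ^ 2 := by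
    simp only [Finset.sum_const, nsmul_eq_mul, mul_one]
    ring
  have hint : ∑ s ∈ X, ∑ s' ∈ X, ((F s ∩ F s').card : ℝ) ≤ (X.card : ℝ) * nr := by
    calc ∑ s ∈ X, ∑ s' ∈ X, ((F s ∩ F s').card : ℝ)
        ≤ ∑ _s ∈ X, nr := by
          refine Finset.sum_le_sum fun s hs => ?_
          have h1 : ∀ s' ∈ X, s' ≠ s → ((F s ∩ F s').card : ℝ) = 0 := by
            intro s' _ hne
            have := Finset.disjoint_iff_inter_eq_empty.1 (hdisj s s' (Ne.symm hne))
            rw [this]; simp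
          rw [Finset.sum_eq_single_of_mem s hs h1]
          have h2 := hFR s
          have h3 : ((F s ∩ F s).card : ℝ) = (F s).card := by rw [Finset.inter_self]
          rw [h3]
          linarith
      _ = _ := by rw [Finset.sum_const, nsmul_eq_mul]
  calc ∑ s ∈ X, (∑ s' ∈ X, (((F s ×ˢ F s').filter (fun p => Same x.1 x.2 p)).card : ℝ)
        - ∑ s' ∈ X, ((F s).card : ℝ) * ((F s').card : ℝ) / nr)
      = ∑ s ∈ X, ∑ s' ∈ X, ((((F s ×ˢ F s').filter (fun p => Same x.1 x.2 p)).card : ℝ)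
        - ((F s).card : ℝ) * ((F s').card : ℝ) / nr) := by
        simp only [Finset.sum_sub_distrib]
    _ ≤ ∑ s ∈ X, ∑ s' ∈ X, (((F s ∩ F s').card : ℝ) + 1
          + (Z (PP F s s') x - (PP F s s').card / (nr - 1))) :=
        Finset.sum_le_sum fun s hs => Finset.sum_le_sum fun s' hs' => hterm s hs s' hs'
    _ = ∑ s ∈ X, ∑ s' ∈ X, ((F s ∩ F s').card : ℝ) + (X.card : ℝ) ^ 2
          + ∑ s ∈ X, ∑ s' ∈ X, (Z (PP F s s') x - (PP F s s').card / (nr - 1)) := by
        rw [← hone]
        simp only [← Finset.sum_add_distrib]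
    _ ≤ _ := by linarith

lemma gram_lower (F : G → Finset (G × G)) (x : Perm G × Perm G) (X Y : Finset G) (g : ℝ)
    (hn : 2 ≤ Fintype.card G) (hg0 : 0 ≤ g)
    (hFR : ∀ s, ((F s).card : ℝ) ≤ (Fintype.card G : ℝ) - g)
    (hhit : ∀ s ∈ X, ∀ j ∈ Y, 1 ≤ hits F x s j) :
    (Y.card : ℝ) * ((X.card : ℝ) * g / (Fintype.card G : ℝ)) ^ 2
      ≤ ∑ j, (∑ s ∈ X, (hits F x s j : ℝ)) ^ 2
        - (∑ s ∈ X, ((F s).card : ℝ)) ^ 2 / (Fintype.card G : ℝ) := by
  have hnr2 : (2 : ℝ) ≤ (Fintype.card G : ℝ) := by exact_mod_cast hn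
  have hcardu : ((univ : Finset G).card : ℝ) = (Fintype.card G : ℝ) := by
    rw [Finset.card_univ]
  generalize (Fintype.card G : ℝ) = nr at *
  obtain ⟨u, hu⟩ : ∃ u : G → ℝ, ∀ j, u j = ∑ s ∈ X, (hits F x s j : ℝ) := ⟨_, fun _ => rfl⟩
  obtain ⟨S, hS⟩ : ∃ S : ℝ, S = ∑ s ∈ X, ((F s).card : ℝ) := ⟨_, rfl⟩
  simp only [← hu, ← hS]
  have hSu : ∑ j, u j = S := by
    simp only [hu, hS]
    rw [Finset.sum_comm]
    refine Finset.sum_congr rfl fun s _ => ?_
    exact_mod_cast hits_sum F x s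
  have hSle : S ≤ X.card * (nr - g) := by
    rw [hS]
    calc ∑ s ∈ X, ((F s).card : ℝ) ≤ ∑ _s ∈ X, (nr - g) := Finset.sum_le_sum fun s _ => hFR s
      _ = _ := by rw [Finset.sum_const, nsmul_eq_mul]
  have hlow : (Y.card : ℝ) * ((X.card : ℝ) * g / nr) ^ 2 ≤ ∑ j, (u j - S / nr) ^ 2 := by
    calc (Y.card : ℝ) * ((X.card : ℝ) * g / nr) ^ 2
        = ∑ _j ∈ Y, ((X.card : ℝ) * g / nr) ^ 2 := by rw [Finset.sum_const, nsmul_eq_mul]
      _ ≤ ∑ j ∈ Y, (u j - S / nr) ^ 2 := by
          refine Finset.sum_le_sum fun j hj => ?_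
          apply pow_le_pow_left₀ (by positivity)
          have h1 : (X.card : ℝ) ≤ u j := by
            rw [hu]
            calc (X.card : ℝ) = ∑ s ∈ X, (1 : ℝ) := by simp
              _ ≤ _ := Finset.sum_le_sum fun s hs => by exact_mod_cast hhit s hs j hj
          have h2 : S / nr ≤ X.card * (nr - g) / nr := by gcongr
          have h3 : (X.card : ℝ) * (nr - g) / nr = X.card - (X.card : ℝ) * g / nr := by
            field_simp
          linarith
      _ ≤ _ := Finset.sum_le_sum_of_subset_of_nonneg (Finset.subset_univ _)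
          fun _ _ _ => sq_nonneg _
  have hvar : ∑ j, (u j - S / nr) ^ 2 = ∑ j, u j ^ 2 - S ^ 2 / nr := by
    have : ∀ j, (u j - S / nr) ^ 2 = u j ^ 2 - 2 * (S / nr) * u j + (S / nr) ^ 2 := by
      intro j; ring
    simp only [this]
    rw [Finset.sum_add_distrib, Finset.sum_sub_distrib, ← Finset.mul_sum, hSu,
      Finset.sum_const, nsmul_eq_mul, hcardu]
    field_simp
    ring
  rw [← hvar]
  exact hlow

theorem main_group (F : G → Finset (G × G)) (g : ℕ)
    (hdisj : ∀ s s', s ≠ s' → Disjoint (F s) (F s'))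
    (hg : 4096 * Fintype.card G ^ 5 ≤ g ^ 6) (hF : ∀ s, (F s).card + g ≤ Fintype.card G) :
    ∃ σ τ : Perm G, ∃ φ : G → G, Function.Injective φ ∧
      ∀ s, ∀ e ∈ F s, σ e.1 + τ e.2 ≠ φ s := by
  classical
  obtain ⟨x, hx1, hx2⟩ := exists_good F g hg hF
  have hnpos : 0 < Fintype.card G := Fintype.card_pos
  have hg1 : 1 ≤ g := by
    rcases Nat.eq_zero_or_pos g with h | h
    · rw [h] at hg
      have : 0 < 4096 * Fintype.card G ^ 5 := by positivity
      omega
    · exact h
  have hn2 : 2 ≤ Fintype.card G := by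
    by_contra h
    have h1 : Fintype.card G = 1 := by omega
    have := hF 0
    have h2 : g = 1 := by omega
    rw [h1, h2] at hg
    norm_num at hg
  refine ⟨x.1, x.2, ?_⟩
  have hall := (Finset.all_card_le_biUnion_card_iff_exists_injective
    (fun s : G => univ.filter (fun j => hits F x s j = 0))).1
  have hHall : ∀ X : Finset G,
      X.card ≤ (X.biUnion (fun s : G => univ.filter (fun j => hits F x s j = 0))).card := by
    intro X
    by_contra hlt
    push Not at hlt
    obtain ⟨W, hW⟩ : ∃ W : Finset G,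
      W = X.biUnion (fun s : G => univ.filter (fun j => hits F x s j = 0)) := ⟨_, rfl⟩
    rw [← hW] at hlt
    obtain ⟨Y, hY⟩ : ∃ Y : Finset G, Y = Wᶜ := ⟨_, rfl⟩
    have hYc : W.card + Y.card = Fintype.card G := by
      rw [hY, Finset.card_compl]
      have := Finset.card_le_univ W
      omega
    have hXn : X.card ≤ Fintype.card G := Finset.card_le_univ X
    have hhit : ∀ s ∈ X, ∀ j ∈ Y, 1 ≤ hits F x s j := by
      intro s hs j hj
      by_contra h
      have h0 : hits F x s j = 0 := by omega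
      rw [hY, Finset.mem_compl] at hj
      apply hj
      rw [hW]
      exact (Finset.mem_biUnion.2 ⟨s, hs, by simp [h0]⟩)
    have hXne : X.Nonempty := by
      rw [← Finset.card_pos]; omega
    have hYne : Y.Nonempty := by
      rw [← Finset.card_pos]; omega
    obtain ⟨s0, hs0⟩ := hXne
    obtain ⟨j0, hj0⟩ := hYne
    have hxg : g ≤ X.card := by
      have h1 : Y.card ≤ (F s0).card := by
        rw [← hits_sum F x s0]
        calc Y.card = ∑ j ∈ Y, 1 := by simp
          _ ≤ ∑ j ∈ Y, hits F x s0 j := Finset.sum_le_sum fun j hj => hhit s0 hs0 j hj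
          _ ≤ _ := Finset.sum_le_sum_of_subset (Finset.subset_univ _)
      have := hF s0
      omega
    have hyg : (g : ℝ) / 2 ≤ Y.card := by
      have h1 : (X.card : ℝ)
          ≤ (((univ.biUnion F).filter (fun e => x.1 e.1 + x.2 e.2 = j0)).card : ℝ) := by
        have h2 : X.card ≤ ∑ s ∈ X, hits F x s j0 := by
          calc X.card = ∑ s ∈ X, 1 := by simp
            _ ≤ _ := Finset.sum_le_sum fun s hs => hhit s hs j0 hj0
        have h3 : ∑ s ∈ X, hits F x s j0
            ≤ ((univ.biUnion F).filter (fun e => x.1 e.1 + x.2 e.2 = j0)).card := by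
          unfold hits
          rw [← Finset.card_biUnion]
          · refine Finset.card_le_card ?_
            intro e he
            simp only [mem_biUnion, mem_filter] at he
            obtain ⟨s, _, h, h'⟩ := he
            simp only [mem_filter, mem_biUnion, mem_univ, true_and]
            exact ⟨⟨s, h⟩, h'⟩
          · intro s _ s' _ hss
            exact Finset.disjoint_filter_filter (hdisj s s' hss)
        exact_mod_cast h2.trans h3
      have h2 := hx2 j0
      have h3 : (Fintype.card G : ℝ) + 1 ≤ X.card + Y.card := by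
        have : Fintype.card G + 1 ≤ X.card + Y.card := by omega
        exact_mod_cast this
      linarith
    have hFR : ∀ s, ((F s).card : ℝ) ≤ (Fintype.card G : ℝ) - g := by
      intro s
      have : ((F s).card : ℝ) + g ≤ (Fintype.card G : ℝ) := by exact_mod_cast hF s
      linarith
    have hgR : (1 : ℝ) ≤ g := by exact_mod_cast hg1
    have hnr2 : (2 : ℝ) ≤ (Fintype.card G : ℝ) := by exact_mod_cast hn2
    have hup := gram_upper F x X (Fintype.card G : ℝ) hnr2
      (fun s => by have := hFR s; linarith) hdisj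
    have hlow := gram_lower F x X Y g hn2 (by linarith) hFR hhit
    have hD2 : (∑ s ∈ X, ∑ s' ∈ X,
        (Z (PP F s s') x - (PP F s s').card / ((Fintype.card G : ℝ) - 1))) ^ 2
        ≤ 16 * (X.card : ℝ) ^ 2 * (Fintype.card G : ℝ) ^ 3 := by
      have h2 := sq_sum_le_card_mul_sum_sq (s := X ×ˢ X)
        (f := fun p : G × G =>
          (Z (PP F p.1 p.2) x - (PP F p.1 p.2).card / ((Fintype.card G : ℝ) - 1)))
      rw [Finset.sum_product] at h2
      refine h2.trans ?_
      have h3 : ∑ p ∈ X ×ˢ X,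
          (Z (PP F p.1 p.2) x - (PP F p.1 p.2).card / ((Fintype.card G : ℝ) - 1)) ^ 2
          ≤ 16 * (Fintype.card G : ℝ) ^ 3 := by
        refine le_trans ?_ hx1
        rw [← Finset.sum_product', Finset.univ_product_univ]
        exact Finset.sum_le_sum_of_subset_of_nonneg (Finset.subset_univ _)
          fun _ _ _ => sq_nonneg _
      rw [Finset.card_product, Nat.cast_mul]
      calc (X.card : ℝ) * X.card * ∑ p ∈ X ×ˢ X,
            (Z (PP F p.1 p.2) x - (PP F p.1 p.2).card / ((Fintype.card G : ℝ) - 1)) ^ 2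
          ≤ (X.card : ℝ) * X.card * (16 * (Fintype.card G : ℝ) ^ 3) := by gcongr
        _ = _ := by ring
    refine final_contra (Fintype.card G : ℝ) g X.card Y.card _ (by linarith) (by linarith)
      (by exact_mod_cast hg) (by exact_mod_cast hxg)
      (by exact_mod_cast hXn) hyg ?_ hD2 (hlow.trans hup)
    have : Fintype.card G ≤ X.card + Y.card := by omega
    exact_mod_cast this
  obtain ⟨φ, hφ, hφ2⟩ := hall hHall
  refine ⟨φ, hφ, fun s e he h => ?_⟩
  have := hφ2 s
  simp only [mem_filter, mem_univ, true_and] at this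
  unfold hits at this
  rw [Finset.card_eq_zero] at this
  have h2 : e ∈ (F s).filter (fun e => x.1 e.1 + x.2 e.2 = φ s) := by
    rw [Finset.mem_filter]; exact ⟨he, h⟩
  rw [this] at h2
  simp at h2

end Pool.Agent.Lib.MP_ce3cb6_co
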