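import Pool.Agent.Lib.MP_ce3cb6_co.Pairs

set_option autoImplicit false

namespace Pool.Agent.Lib.MP_ce3cb6_co

open Finset Equiv

variable {G : Type*} [AddCommGroup G] [Fintype G] [DecidableEq G]

/-- number of pairs of `P` that lie in one class -/
def Z (P : Finset ((G × G) × (G × G))) (x : Perm G × Perm G) : ℝ :=
  ((P.filter (fun p => Same x.1 x.2 p)).card : ℝ)

lemma Z_eq (P : Finset ((G × G) × (G × G))) (x : Perm G × Perm G) :
    Z P x = ∑ p ∈ P, if Same x.1 x.2 p then (1 : ℝ) else 0 := by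
  unfold Z
  rw [Finset.card_filter]
  push_cast
  rfl

lemma Z_sq (P : Finset ((G × G) × (G × G))) (x : Perm G × Perm G) :
    Z P x ^ 2 = ∑ p ∈ P, ∑ q ∈ P,
      if Same x.1 x.2 p ∧ Same x.1 x.2 q then (1 : ℝ) else 0 := by
  rw [Z_eq, sq, Finset.sum_mul_sum]
  refine Finset.sum_congr rfl fun p _ => Finset.sum_congr rfl fun q _ => ?_
  by_cases h1 : Same x.1 x.2 p <;> by_cases h2 : Same x.1 x.2 q <;> simp [h1, h2]

theorem sumZ (P : Finset ((G × G) × (G × G))) (hP : ∀ p ∈ P, Valid p)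
    (hn : 2 ≤ Fintype.card G) :
    ∑ x : Perm G × Perm G, Z P x
      = (P.card : ℝ) * ((Fintype.card G).factorial : ℝ) ^ 2 / ((Fintype.card G : ℝ) - 1) := by
  have hn' : (0 : ℝ) < (Fintype.card G : ℝ) - 1 := by
    have : (2 : ℝ) ≤ Fintype.card G := by exact_mod_cast hn
    linarith
  simp only [Z_eq]
  rw [Finset.sum_comm]
  have h1 : ∀ p ∈ P, ∑ x : Perm G × Perm G, (if Same x.1 x.2 p then (1 : ℝ) else 0)
      = ((Fintype.card G).factorial : ℝ) ^ 2 / ((Fintype.card G : ℝ) - 1) := by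
    intro p hp
    have := cnt1 p (hP p hp)
    rw [eq_div_iff hn'.ne']
    rw [Finset.card_filter] at this
    have h2 : ((Fintype.card G : ℝ) - 1) = ((Fintype.card G - 1 : ℕ) : ℝ) := by
      rw [Nat.cast_sub (by omega)]; simp
    rw [h2, sq]
    exact_mod_cast this
  rw [Finset.sum_congr rfl h1]
  simp
  ring

theorem sumZ2 (P : Finset ((G × G) × (G × G))) (hP : ∀ p ∈ P, Valid p)
    (hn : 4 ≤ Fintype.card G) :
    ∑ x : Perm G × Perm G, Z P x ^ 2
      ≤ ((P.card : ℝ) ^ 2 / (((Fintype.card G : ℝ) - 1) * ((Fintype.card G : ℝ) - 3))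
        + 4 * P.card / ((Fintype.card G : ℝ) - 1)) *
        ((Fintype.card G).factorial : ℝ) ^ 2 := by
  set n := Fintype.card G with hnn
  have hn4 : (4 : ℝ) ≤ n := by exact_mod_cast hn
  have hn1 : (0 : ℝ) < (n : ℝ) - 1 := by linarith
  have hn3 : (0 : ℝ) < (n : ℝ) - 3 := by linarith
  have c1 : ((n - 1 : ℕ) : ℝ) = (n : ℝ) - 1 := by rw [Nat.cast_sub (by omega)]; simp
  have c3 : ((n - 3 : ℕ) : ℝ) = (n : ℝ) - 3 := by rw [Nat.cast_sub (by omega)]; simp
  simp only [Z_sq]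
  rw [Finset.sum_comm]
  have hgood : ∀ p ∈ P, ∀ q ∈ P, ¬ Deg p q →
      ∑ x : Perm G × Perm G, (if Same x.1 x.2 p ∧ Same x.1 x.2 q then (1 : ℝ) else 0)
      ≤ (n.factorial : ℝ) ^ 2 / (((n : ℝ) - 1) * ((n : ℝ) - 3)) := by
    intro p hp q hq hd
    have := cnt2 p q (hP p hp) (hP q hq) hd
    rw [le_div_iff₀ (by positivity), ← c1, ← c3, sq]
    rw [Finset.card_filter] at this
    exact_mod_cast this
  have hbad : ∀ p ∈ P, ∀ q ∈ P,
      ∑ x : Perm G × Perm G, (if Same x.1 x.2 p ∧ Same x.1 x.2 q then (1 : ℝ) else 0)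
      ≤ (n.factorial : ℝ) ^ 2 / ((n : ℝ) - 1) := by
    intro p hp q _
    have := cnt1 p (hP p hp)
    calc ∑ x : Perm G × Perm G, (if Same x.1 x.2 p ∧ Same x.1 x.2 q then (1 : ℝ) else 0)
        ≤ ∑ x : Perm G × Perm G, (if Same x.1 x.2 p then (1 : ℝ) else 0) := by
          refine Finset.sum_le_sum fun x _ => ?_
          by_cases h1 : Same x.1 x.2 p <;> by_cases h2 : Same x.1 x.2 q <;> simp [h1, h2]
      _ = (n.factorial : ℝ) ^ 2 / ((n : ℝ) - 1) := by
          rw [eq_div_iff hn1.ne', ← c1, sq]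
          rw [Finset.card_filter] at this
          exact_mod_cast this
  calc ∑ p ∈ P, ∑ x : Perm G × Perm G, ∑ q ∈ P,
        (if Same x.1 x.2 p ∧ Same x.1 x.2 q then (1 : ℝ) else 0)
      = ∑ p ∈ P, ∑ q ∈ P, ∑ x : Perm G × Perm G,
        (if Same x.1 x.2 p ∧ Same x.1 x.2 q then (1 : ℝ) else 0) := by
        refine Finset.sum_congr rfl fun p _ => ?_
        rw [Finset.sum_comm]
    _ ≤ ∑ p ∈ P, ((P.card : ℝ) * ((n.factorial : ℝ) ^ 2 / (((n : ℝ) - 1) * ((n : ℝ) - 3)))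
          + 4 * ((n.factorial : ℝ) ^ 2 / ((n : ℝ) - 1))) := by
        refine Finset.sum_le_sum fun p hp => ?_
        rw [← Finset.sum_filter_add_sum_filter_not P (fun q => Deg p q), add_comm]
        refine add_le_add ?_ ?_
        · calc ∑ q ∈ P.filter (fun q => ¬ Deg p q), ∑ x : Perm G × Perm G,
                (if Same x.1 x.2 p ∧ Same x.1 x.2 q then (1 : ℝ) else 0)
              ≤ ∑ q ∈ P.filter (fun q => ¬ Deg p q),
                (n.factorial : ℝ) ^ 2 / (((n : ℝ) - 1) * ((n : ℝ) - 3)) := by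
                refine Finset.sum_le_sum fun q hq => ?_
                rw [Finset.mem_filter] at hq
                exact hgood p hp q hq.1 hq.2
            _ = ((P.filter (fun q => ¬ Deg p q)).card : ℝ) *
                ((n.factorial : ℝ) ^ 2 / (((n : ℝ) - 1) * ((n : ℝ) - 3))) := by simp
            _ ≤ _ := by
                refine mul_le_mul_of_nonneg_right ?_ (by positivity)
                exact_mod_cast Finset.card_filter_le _ _
        · calc ∑ q ∈ P.filter (fun q => Deg p q), ∑ x : Perm G × Perm G,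
                (if Same x.1 x.2 p ∧ Same x.1 x.2 q then (1 : ℝ) else 0)
              ≤ ∑ q ∈ P.filter (fun q => Deg p q), (n.factorial : ℝ) ^ 2 / ((n : ℝ) - 1) := by
                refine Finset.sum_le_sum fun q hq => ?_
                rw [Finset.mem_filter] at hq
                exact hbad p hp q hq.1
            _ = ((P.filter (fun q => Deg p q)).card : ℝ) *
                ((n.factorial : ℝ) ^ 2 / ((n : ℝ) - 1)) := by simp
            _ ≤ _ := by
                refine mul_le_mul_of_nonneg_right ?_ (by positivity)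
                exact_mod_cast deg_card P hP p
    _ = _ := by
        rw [Finset.sum_const, nsmul_eq_mul]
        field_simp

/-- variance bound -/
theorem sumVar (P : Finset ((G × G) × (G × G))) (hP : ∀ p ∈ P, Valid p)
    (hn : 5 ≤ Fintype.card G) (hc : (P.card : ℝ) ≤ ((Fintype.card G : ℝ) - 1) ^ 2) :
    ∑ x : Perm G × Perm G, (Z P x - P.card / ((Fintype.card G : ℝ) - 1)) ^ 2
      ≤ 8 * (Fintype.card G : ℝ) * ((Fintype.card G).factorial : ℝ) ^ 2 := by
  have h1 := sumZ P hP (by omega)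
  have h2 := sumZ2 P hP (by omega)
  set n := Fintype.card G with hnn
  have hn4 : (5 : ℝ) ≤ n := by exact_mod_cast hn
  have hn1 : (0 : ℝ) < (n : ℝ) - 1 := by linarith
  have hn3 : (0 : ℝ) < (n : ℝ) - 3 := by linarith
  set N : ℝ := (n.factorial : ℝ) ^ 2 with hN
  have hN0 : 0 ≤ N := by positivity
  set μ : ℝ := P.card / ((n : ℝ) - 1) with hμ
  have hcard : (Fintype.card (Perm G × Perm G) : ℝ) = N := by
    rw [Fintype.card_prod, Fintype.card_perm, hN, sq]
    push_cast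
    rfl
  have h3 : ∑ x : Perm G × Perm G, (Z P x - μ) ^ 2
      = ∑ x : Perm G × Perm G, Z P x ^ 2 - μ ^ 2 * N := by
    have : ∀ x : Perm G × Perm G, (Z P x - μ) ^ 2 = Z P x ^ 2 - 2 * μ * Z P x + μ ^ 2 := by
      intro x; ring
    simp only [this]
    rw [Finset.sum_add_distrib, Finset.sum_sub_distrib, ← Finset.mul_sum, h1]
    rw [Finset.sum_const, nsmul_eq_mul, Finset.card_univ, hcard]
    rw [show (P.card : ℝ) * N / ((n : ℝ) - 1) = μ * N by rw [hμ]; ring]
    ring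
  rw [h3]
  have h4 : ((P.card : ℝ) ^ 2 / (((n : ℝ) - 1) * ((n : ℝ) - 3)) + 4 * P.card / ((n : ℝ) - 1)) - μ ^ 2
      ≤ 8 * n := by
    have hP0 : (0 : ℝ) ≤ P.card := by positivity
    have e : ((P.card : ℝ) ^ 2 / (((n : ℝ) - 1) * ((n : ℝ) - 3)) + 4 * P.card / ((n : ℝ) - 1)) - μ ^ 2
        = (P.card : ℝ) ^ 2 * 2 / (((n : ℝ) - 1) ^ 2 * ((n : ℝ) - 3)) + 4 * P.card / ((n : ℝ) - 1) := by
      rw [hμ]
      field_simp
      ring
    rw [e]
    have e1 : (P.card : ℝ) ^ 2 * 2 / (((n : ℝ) - 1) ^ 2 * ((n : ℝ) - 3)) ≤ 4 * n := by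
      rw [div_le_iff₀ (by positivity)]
      have : (P.card : ℝ) ^ 2 ≤ (((n : ℝ) - 1) ^ 2) ^ 2 := by
        exact pow_le_pow_left₀ hP0 hc 2
      have h5 : ((n : ℝ) - 1) ^ 2 ≤ 2 * n * (n - 3) := by nlinarith
      calc (P.card : ℝ) ^ 2 * 2 ≤ (((n : ℝ) - 1) ^ 2) * (((n : ℝ) - 1) ^ 2) * 2 := by nlinarith
        _ ≤ (((n : ℝ) - 1) ^ 2) * (2 * n * (n - 3)) * 2 := by gcongr
        _ = _ := by ring
    have e2 : 4 * (P.card : ℝ) / ((n : ℝ) - 1) ≤ 4 * n := by
      rw [div_le_iff₀ hn1]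
      nlinarith
    linarith
  nlinarith

end Pool.Agent.Lib.MP_ce3cb6_co
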