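import Pool.Agent.Lib.MP_ce3cb6_co.Switch

set_option autoImplicit false

namespace Pool.Agent.Lib.MP_ce3cb6_co

open Finset Equiv

variable {G : Type*} [AddCommGroup G] [Fintype G] [DecidableEq G]

/-- the two cells of `p` lie in the same class of the isotope of the group table -/
def Same (σ τ : Perm G) (p : (G × G) × (G × G)) : Prop :=
  σ p.1.1 + τ p.1.2 = σ p.2.1 + τ p.2.2

instance (σ τ : Perm G) (p : (G × G) × (G × G)) : Decidable (Same σ τ p) :=
  inferInstanceAs (Decidable (_ = _))

/-- two cells in different rows and different columns -/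
def Valid (p : (G × G) × (G × G)) : Prop := p.1.1 ≠ p.2.1 ∧ p.1.2 ≠ p.2.2

/-- transposed pair -/
def tr (p : (G × G) × (G × G)) : (G × G) × (G × G) := ((p.1.2, p.1.1), (p.2.2, p.2.1))

omit [Fintype G] [DecidableEq G] in
lemma same_tr (σ τ : Perm G) (p : (G × G) × (G × G)) : Same τ σ (tr p) ↔ Same σ τ p := by
  simp only [Same, tr, add_comm]

omit [AddCommGroup G] [Fintype G] [DecidableEq G] in
lemma valid_tr {p : (G × G) × (G × G)} (h : Valid p) : Valid (tr p) := ⟨h.2, h.1⟩

theorem same_count (σ : Perm G) (p : (G × G) × (G × G)) (hp : Valid p) :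
    (univ.filter (fun τ : Perm G => Same σ τ p)).card * (Fintype.card G - 1)
      = (Fintype.card G).factorial := by
  have h := switch_eq ({p.1.2} : Finset G) p.2.2 (by simpa using hp.2.symm) (fun _ => True)
    (fun τ => σ p.1.1 + τ p.1.2 - σ p.2.1) (fun _ _ _ _ => trivial)
    (by
      intro τ w hw _
      rw [Finset.mem_singleton] at hw
      have : (τ * swap p.2.2 w) p.1.2 = τ p.1.2 := by
        rw [Perm.mul_apply, swap_apply_of_ne_of_ne hp.2 (Ne.symm hw)]
      simp only [this])
    (by
      intro τ _ x hx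
      rw [Finset.mem_singleton] at hx
      subst hx
      intro h
      apply hp.1
      apply σ.injective
      have : τ p.1.2 = τ p.1.2 + (σ p.1.1 - σ p.2.1) := by
        nth_rewrite 1 [h]; abel
      have h2 : σ p.1.1 - σ p.2.1 = 0 := by
        simpa using this
      exact sub_eq_zero.1 h2)
  rw [Finset.card_singleton] at h
  have h1 : (univ.filter (fun τ : Perm G => Same σ τ p))
      = univ.filter (fun τ : Perm G => True ∧ τ p.2.2 = σ p.1.1 + τ p.1.2 - σ p.2.1) := by
    ext τ
    simp only [mem_filter, mem_univ, true_and]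
    rw [eq_sub_iff_add_eq, add_comm (τ p.2.2)]
    exact eq_comm
  rw [h1, h]
  simp [Fintype.card_perm]

theorem same_same_le (σ : Perm G) (p q : (G × G) × (G × G)) (hq : Valid q)
    (h : ¬ ((q.1.2 = p.1.2 ∨ q.1.2 = p.2.2) ∧ (q.2.2 = p.1.2 ∨ q.2.2 = p.2.2))) :
    (univ.filter (fun τ : Perm G => Same σ τ p ∧ Same σ τ q)).card * (Fintype.card G - 3)
      ≤ (univ.filter (fun τ : Perm G => Same σ τ p)).card := by
  -- general form
  have gen : ∀ q : (G × G) × (G × G), Valid q → ¬ (q.2.2 = p.1.2 ∨ q.2.2 = p.2.2) →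
      (univ.filter (fun τ : Perm G => Same σ τ p ∧ Same σ τ q)).card * (Fintype.card G - 3)
      ≤ (univ.filter (fun τ : Perm G => Same σ τ p)).card := by
    intro q hq hh
    push Not at hh
    have hfix : ∀ (τ : Perm G) (w x : G), w ∉ ({p.1.2, p.2.2, q.1.2} : Finset G) →
        x ∈ ({p.1.2, p.2.2, q.1.2} : Finset G) → (τ * swap q.2.2 w) x = τ x := by
      intro τ w x hw hx
      have h1 : x ≠ w := by rintro rfl; exact hw hx
      have h2 : x ≠ q.2.2 := by
        rintro rfl
        simp only [Finset.mem_insert, Finset.mem_singleton] at hx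
        rcases hx with h | h | h
        · exact hh.1 h
        · exact hh.2 h
        · exact hq.2 h.symm
      rw [Perm.mul_apply, swap_apply_of_ne_of_ne h2 h1]
    have key := switch_le ({p.1.2, p.2.2, q.1.2} : Finset G) q.2.2
      (by
        simp only [Finset.mem_insert, Finset.mem_singleton, not_or]
        exact ⟨hh.1, hh.2, hq.2.symm⟩)
      (fun τ => Same σ τ p) (fun τ => σ q.1.1 + τ q.1.2 - σ q.2.1)
      (by
        intro τ w hw hs
        unfold Same at hs ⊢
        rw [hfix τ w _ hw (by simp), hfix τ w _ hw (by simp)]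
        exact hs)
      (by
        intro τ w hw _
        rw [hfix τ w _ hw (by simp)])
    have h1 : (univ.filter (fun τ : Perm G => Same σ τ p ∧ Same σ τ q))
        = univ.filter (fun τ : Perm G => Same σ τ p ∧ τ q.2.2 = σ q.1.1 + τ q.1.2 - σ q.2.1) := by
      ext τ
      simp only [mem_filter, mem_univ, true_and]
      rw [eq_sub_iff_add_eq, add_comm (τ q.2.2)]
      constructor
      · rintro ⟨a, b⟩; exact ⟨a, b.symm⟩
      · rintro ⟨a, b⟩; exact ⟨a, b.symm⟩
    rw [h1]
    refine le_trans (Nat.mul_le_mul_left _ ?_) key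
    have := Finset.card_le_three (a := p.1.2) (b := p.2.2) (c := q.1.2)
    omega
  by_cases h2 : (q.2.2 = p.1.2 ∨ q.2.2 = p.2.2)
  · have h1 : ¬ (q.1.2 = p.1.2 ∨ q.1.2 = p.2.2) := fun h1 => h ⟨h1, h2⟩
    have := gen (q.2, q.1) ⟨hq.1.symm, hq.2.symm⟩ h1
    have e : (univ.filter (fun τ : Perm G => Same σ τ p ∧ Same σ τ q))
        = (univ.filter (fun τ : Perm G => Same σ τ p ∧ Same σ τ (q.2, q.1))) := by
      ext τ
      simp only [mem_filter, mem_univ, true_and]
      constructor
      · rintro ⟨a, b⟩; exact ⟨a, b.symm⟩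
      · rintro ⟨a, b⟩; exact ⟨a, b.symm⟩
    rw [e]
    exact this
  · exact gen q hq h2

/-- number of pairs of permutations, one pair of cells -/
theorem cnt1 (p : (G × G) × (G × G)) (hp : Valid p) :
    (univ.filter (fun x : Perm G × Perm G => Same x.1 x.2 p)).card * (Fintype.card G - 1)
      = (Fintype.card G).factorial * (Fintype.card G).factorial := by
  have : (univ.filter (fun x : Perm G × Perm G => Same x.1 x.2 p)).card
      = ∑ σ : Perm G, (univ.filter (fun τ : Perm G => Same σ τ p)).card := by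
    simp only [Finset.card_filter]
    rw [Fintype.sum_prod_type]
  rw [this, Finset.sum_mul, Finset.sum_congr rfl (fun σ _ => same_count σ p hp)]
  simp [Fintype.card_perm]

/-- degenerate companions of a pair of cells: the pairs with the same two rows and the same two
columns -/
def Deg (p q : (G × G) × (G × G)) : Prop :=
  ((q.1.2 = p.1.2 ∨ q.1.2 = p.2.2) ∧ (q.2.2 = p.1.2 ∨ q.2.2 = p.2.2)) ∧
  ((q.1.1 = p.1.1 ∨ q.1.1 = p.2.1) ∧ (q.2.1 = p.1.1 ∨ q.2.1 = p.2.1))

instance (p q : (G × G) × (G × G)) : Decidable (Deg p q) :=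
  inferInstanceAs (Decidable (_ ∧ _))

theorem cnt2 (p q : (G × G) × (G × G)) (hp : Valid p) (hq : Valid q) (h : ¬ Deg p q) :
    (univ.filter (fun x : Perm G × Perm G => Same x.1 x.2 p ∧ Same x.1 x.2 q)).card *
      ((Fintype.card G - 1) * (Fintype.card G - 3))
      ≤ (Fintype.card G).factorial * (Fintype.card G).factorial := by
  have gen : ∀ p q : (G × G) × (G × G), Valid p → Valid q →
      ¬ ((q.1.2 = p.1.2 ∨ q.1.2 = p.2.2) ∧ (q.2.2 = p.1.2 ∨ q.2.2 = p.2.2)) →
      (univ.filter (fun x : Perm G × Perm G => Same x.1 x.2 p ∧ Same x.1 x.2 q)).card *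
      ((Fintype.card G - 1) * (Fintype.card G - 3))
      ≤ (Fintype.card G).factorial * (Fintype.card G).factorial := by
    intro p q hp hq h
    have e : (univ.filter (fun x : Perm G × Perm G => Same x.1 x.2 p ∧ Same x.1 x.2 q)).card
        = ∑ σ : Perm G, (univ.filter (fun τ : Perm G => Same σ τ p ∧ Same σ τ q)).card := by
      simp only [Finset.card_filter]
      rw [Fintype.sum_prod_type]
    rw [e, Finset.sum_mul]
    calc ∑ σ : Perm G, (univ.filter (fun τ : Perm G => Same σ τ p ∧ Same σ τ q)).card *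
          ((Fintype.card G - 1) * (Fintype.card G - 3))
        ≤ ∑ _σ : Perm G, (Fintype.card G).factorial := by
          refine Finset.sum_le_sum fun σ _ => ?_
          rw [mul_comm (Fintype.card G - 1), ← mul_assoc, ← same_count σ p hp]
          exact Nat.mul_le_mul_right _ (same_same_le σ p q hq h)
      _ = _ := by simp [Fintype.card_perm]
  by_cases h1 : ((q.1.2 = p.1.2 ∨ q.1.2 = p.2.2) ∧ (q.2.2 = p.1.2 ∨ q.2.2 = p.2.2))
  · have h2 : ¬ ((q.1.1 = p.1.1 ∨ q.1.1 = p.2.1) ∧ (q.2.1 = p.1.1 ∨ q.2.1 = p.2.1)) :=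
      fun h2 => h ⟨h1, h2⟩
    have := gen (tr p) (tr q) (valid_tr hp) (valid_tr hq) h2
    refine le_trans (le_of_eq ?_) this
    congr 1
    refine Finset.card_bij' (fun x _ => x.swap) (fun x _ => x.swap) ?_ ?_ ?_ ?_
    · intro x hx
      simpa [same_tr] using hx
    · intro x hx
      simp only [mem_filter, mem_univ, true_and, Prod.fst_swap, Prod.snd_swap] at hx ⊢
      rw [← same_tr, ← same_tr x.2 x.1 q]
      exact hx
    · intro x _; simp
    · intro x _; simp
  · exact gen p q hp hq h1

omit [AddCommGroup G] [Fintype G] in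
/-- there are at most four degenerate companions -/
theorem deg_card (P : Finset ((G × G) × (G × G))) (hP : ∀ q ∈ P, Valid q)
    (p : (G × G) × (G × G)) : (P.filter (fun q => Deg p q)).card ≤ 4 := by
  have h4 : (({p.1.1, p.2.1} : Finset G) ×ˢ ({p.1.2, p.2.2} : Finset G)).card ≤ 4 := by
    rw [Finset.card_product]
    exact Nat.mul_le_mul Finset.card_le_two Finset.card_le_two
  refine le_trans ?_ h4
  refine Finset.card_le_card_of_injOn (fun q => q.1) ?_ ?_
  · intro q hq
    simp only [mem_coe, mem_filter] at hq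
    obtain ⟨_, ⟨⟨h1, _⟩, ⟨h3, _⟩⟩⟩ := hq
    simp only [mem_coe, mem_product, mem_insert, mem_singleton]
    exact ⟨h3, h1⟩
  · intro q hq q' hq' heq
    simp only [mem_coe, mem_filter] at hq hq'
    obtain ⟨hm, ⟨⟨h1, h2⟩, ⟨h3, h4⟩⟩⟩ := hq
    obtain ⟨hm', ⟨⟨h1', h2'⟩, ⟨h3', h4'⟩⟩⟩ := hq'
    have hv := hP q hm
    have hv' := hP q' hm'
    obtain ⟨⟨a, b⟩, ⟨c, d⟩⟩ := q
    obtain ⟨⟨a', b'⟩, ⟨c', d'⟩⟩ := q'
    simp only [Prod.mk.injEq] at heq
    obtain ⟨rfl, rfl⟩ := heq
    simp only [Valid] at hv hv'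
    simp only at h1 h2 h3 h4 h2' h4'
    have hc : c = c' := by
      rcases h3 with h | h <;> rcases h4 with h' | h' <;> rcases h4' with h'' | h'' <;>
        first
          | (exact h'.trans h''.symm)
          | (exfalso; exact hv.1 (h.trans h'.symm))
          | (exfalso; exact hv'.1 (h.trans h''.symm))
    have hd : d = d' := by
      rcases h1 with h | h <;> rcases h2 with h' | h' <;> rcases h2' with h'' | h'' <;>
        first
          | (exact h'.trans h''.symm)
          | (exfalso; exact hv.2 (h.trans h'.symm))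
          | (exfalso; exact hv'.2 (h.trans h''.symm))
    rw [hc, hd]

end Pool.Agent.Lib.MP_ce3cb6_co
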