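import Mathlib

set_option autoImplicit false

namespace Pool.Agent.Lib.MP_ce3cb6_co

open Finset Equiv

variable {G : Type*} [Fintype G] [DecidableEq G]

/-- switching: if the value at `c` is forced by the values on `S`, we lose a factor `n - |S|`. -/
theorem switch_le (S : Finset G) (c : G) (hc : c ∉ S) (Q : Perm G → Prop) [DecidablePred Q]
    (v : Perm G → G)
    (hQ : ∀ τ w, w ∉ S → Q τ → Q (τ * swap c w))
    (hv : ∀ τ w, w ∉ S → Q τ → v (τ * swap c w) = v τ) :
    (univ.filter (fun τ : Perm G => Q τ ∧ τ c = v τ)).card * (Fintype.card G - S.card)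
      ≤ (univ.filter (fun τ : Perm G => Q τ)).card := by
  rw [← Finset.card_compl, ← Finset.card_product]
  refine Finset.card_le_card_of_injOn (fun x => x.1 * swap c x.2) ?_ ?_
  · rintro ⟨τ, w⟩ hx
    simp only [coe_product, Set.mem_prod, mem_coe, mem_filter, mem_univ, true_and,
      mem_compl] at hx
    simp only [mem_coe, mem_filter, mem_univ, true_and]
    exact hQ τ w hx.2 hx.1.1
  · rintro ⟨τ, w⟩ hx ⟨τ', w'⟩ hx' heq
    simp only [coe_product, Set.mem_prod, mem_coe, mem_filter, mem_univ, true_and,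
      mem_compl] at hx hx'
    simp only at heq
    have e1 : v (τ * swap c w) = v τ := hv τ w hx.2 hx.1.1
    have e2 : v (τ' * swap c w') = v τ' := hv τ' w' hx'.2 hx'.1.1
    have e3 : (τ * swap c w) w = v (τ * swap c w) := by
      rw [e1, ← hx.1.2]; simp
    have e4 : (τ' * swap c w') w' = v (τ' * swap c w') := by
      rw [e2, ← hx'.1.2]; simp
    have hw : w = w' := by
      rw [← heq] at e4
      exact (τ * swap c w).injective (e3.trans e4.symm)
    subst hw
    have : τ = τ' := mul_right_cancel heq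
    rw [this]

/-- switching, equality case -/
theorem switch_eq (S : Finset G) (c : G) (hc : c ∉ S) (Q : Perm G → Prop) [DecidablePred Q]
    (v : Perm G → G)
    (hQ : ∀ τ w, w ∉ S → Q τ → Q (τ * swap c w))
    (hv : ∀ τ w, w ∉ S → Q τ → v (τ * swap c w) = v τ)
    (hS : ∀ τ, Q τ → ∀ x ∈ S, τ x ≠ v τ) :
    (univ.filter (fun τ : Perm G => Q τ ∧ τ c = v τ)).card * (Fintype.card G - S.card)
      = (univ.filter (fun τ : Perm G => Q τ)).card := by
  refine le_antisymm (switch_le S c hc Q v hQ hv) ?_
  rw [← Finset.card_compl, ← Finset.card_product]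
  refine Finset.card_le_card_of_injOn
    (fun τ => (τ * swap c (τ.symm (v τ)), τ.symm (v τ))) ?_ ?_
  · intro τ hτ
    simp only [mem_coe, mem_filter, mem_univ, true_and] at hτ
    simp only [coe_product, Set.mem_prod, mem_coe, mem_filter, mem_univ, true_and,
      mem_compl]
    have hw : τ.symm (v τ) ∉ S := by
      intro h
      exact hS τ hτ _ h (by simp)
    refine ⟨⟨hQ τ _ hw hτ, ?_⟩, hw⟩
    rw [hv τ _ hw hτ]
    simp
  · intro τ hτ τ' hτ' heq
    simp only [Prod.mk.injEq] at heq
    rw [heq.2] at heq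
    exact mul_right_cancel heq.1

end Pool.Agent.Lib.MP_ce3cb6_co
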